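import Pool.Agent.Q115.SatStarMain

/-!
# Rainbow saturation can be cheaper than saturation

`IsCopy`, `IsProper`, `IsRainbow`, `Saturated`, `RainbowSaturated`, `sat`, `satStar` are defined
in `Pool.Agent.Q115.SatStarBase` exactly as in the problem file.  For the six-vertex graph
`pathEdge`, the disjoint union of a path on four vertices and an edge, the rainbow saturation
number is at most `9` and the saturation number at least `10`, for every `n ≥ 20`.
-/

namespace Pool.Agent.Results.MP_e87155_co.PathPlusEdge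

open Pool.Agent.Q115.SatStar

/-- For `H = P₄ ∪ K₂` we have `sat*(n, H) ≤ 9 < 10 ≤ sat(n, H)` for all `n ≥ 20`; in particular
some graph `H` with an edge satisfies `sat*(n, H) < sat(n, H)` for all large `n`. -/
theorem result :
    (∀ n : ℕ, 20 ≤ n →
      (∃ G : SimpleGraph (Fin n), RainbowSaturated pathEdge G) ∧
      (∃ G : SimpleGraph (Fin n), Saturated pathEdge G) ∧
      satStar n pathEdge ≤ 9 ∧ 10 ≤ sat n pathEdge) ∧
    ∃ (k : ℕ) (H : SimpleGraph (Fin k)), (∃ a b, H.Adj a b) ∧
      ∃ N : ℕ, ∀ n : ℕ, N ≤ n → satStar n H < sat n H := by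
  refine ⟨fun n hn => ⟨⟨gStar n, gStar_rainbowSaturated (by omega)⟩,
    exists_saturated n pathEdge ⟨0, 1, adj01⟩, satStar_le (by omega), le_sat hn⟩, ?_⟩
  refine ⟨6, pathEdge, ⟨0, 1, adj01⟩, 20, fun n hn => ?_⟩
  have h1 := satStar_le (n := n) (by omega)
  have h2 := le_sat hn
  omega

end Pool.Agent.Results.MP_e87155_co.PathPlusEdge
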